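import Pool.Agent.H747.LieDim.Lower
import Pool.Graph.R_seed8.R292.CovDim
import Pool.Graph.R_seed8.H816R3.Colour

set_option autoImplicit false
set_option linter.unusedSectionVars false

open Set Filter Topology
open scoped Pointwise

namespace Pool.Agent.H747.LieDim

open Pool.Agent.H816R3

/-- compact subsets of `ℝⁿ` have dimension at most `n` -/
theorem relDim_of_isCompact_pi {n : ℕ} {A : Set (Fin n → ℝ)} (hA : IsCompact A) :
    RelDim A n := by
  obtain ⟨R, hR⟩ := hA.isBounded.subset_closedBall 0
  have h1 : Pool.Agent.R292.CovDim.Col A n := by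
    have h2 := Pool.Agent.R292.CovDim.Col.pi (Q := Fin n) (fun _ => Set.Icc (-R) R) (fun _ => 1)
      (fun _ => Pool.Agent.R292.CovDim.Col.Icc (-R) R)
    refine h2.mono ?_ (by simp)
    intro x hx q _
    have h3 := hR hx
    rw [mem_closedBall_zero_iff] at h3
    have h4 := (norm_le_pi_norm x q).trans h3
    rw [Real.norm_eq_abs, abs_le] at h4
    exact h4
  have h5 : DimLE A n := Pool.Agent.R292.CovDim.dimLE_of_col hA h1
  have h6 := (relDim_univ_of_dimLE h5).image (IsInducing.subtypeVal (t := A))
  rwa [Set.image_univ, Subtype.range_coe] at h6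

/-- compact subsets of a normed space of dimension `n` have dimension at most `n` -/
theorem relDim_of_isCompact {E : Type} [NormedAddCommGroup E] [NormedSpace ℝ E]
    [FiniteDimensional ℝ E] {A : Set E} (hA : IsCompact A) : RelDim A (Module.finrank ℝ E) := by
  let e : E ≃L[ℝ] (Fin (Module.finrank ℝ E) → ℝ) := ContinuousLinearEquiv.ofFinrankEq (by simp)
  have h1 : RelDim (e '' A) (Module.finrank ℝ E) :=
    relDim_of_isCompact_pi (hA.image e.continuous)
  exact h1.of_image e.toHomeomorph.isInducing

/-- Local-to-global: a locally compact group has dimension at most `n` as soon as all its compact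
subsets do. -/
theorem dimLE_of_compact {G : Type} [TopologicalSpace G] [Group G] [IsTopologicalGroup G]
    [LocallyCompactSpace G] [T2Space G] {n : ℕ}
    (hcompact : ∀ C : Set G, IsCompact C → RelDim C n) : DimLE G n := by
  obtain ⟨I, K, N, m, c, hK, hN, hKN, hcov, hsep⟩ := exists_decomposition (G := G)
  let J : Fin m → Type := fun a => {x : G // x ∈ I ∧ c x = a}
  let F : Fin m → Set G := fun a => ⋃ x : J a, (fun g => g * x.1⁻¹) ⁻¹' K
  have hFpre : ∀ x : G, IsCompact ((fun g : G => g * x⁻¹) ⁻¹' K) := by
    intro x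
    have h1 : (fun g : G => g * x⁻¹) ⁻¹' K = (fun g : G => g * x) '' K := by
      ext g
      constructor
      · intro hg
        exact ⟨g * x⁻¹, hg, by simp⟩
      · rintro ⟨k, hk, rfl⟩
        simpa using hk
    rw [h1]
    exact hK.image (by fun_prop)
  have hFdim : ∀ a, RelDim (F a) n := by
    intro a
    refine relDim_iUnion_of_separated (fun x : J a => (fun g => g * x.1⁻¹) ⁻¹' K)
      (fun x : J a => (fun g => g * x.1⁻¹) ⁻¹' N) ?_ ?_ ?_ ?_
    · intro x
      exact hN.preimage (by fun_prop)
    · intro x
      exact Set.preimage_mono hKN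
    · intro x y hxy
      rw [Set.disjoint_left]
      intro g hgx hgy
      exact hxy (Subtype.ext (hsep x.1 x.2.1 y.1 y.2.1 (x.2.2.trans y.2.2.symm) g hgx hgy))
    · intro x
      exact hcompact _ (hFpre x.1)
  have hFclosed : ∀ a, IsClosed (F a) := by
    intro a
    obtain ⟨U, hU, hUK⟩ := compact_open_separated_mul_left hK hN hKN
    have hUinv : U⁻¹ ∈ 𝓝 (1 : G) := by
      have h1 : Tendsto (fun g : G => g⁻¹) (𝓝 1) (𝓝 1) := by
        simpa using (continuous_inv (G := G)).tendsto 1
      exact h1 hU
    refine LocallyFinite.isClosed_iUnion ?_ (fun x => (hFpre x.1).isClosed)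
    intro g
    refine ⟨(fun h => h * g⁻¹) ⁻¹' U⁻¹, ?_, ?_⟩
    · have h1 : Tendsto (fun h : G => h * g⁻¹) (𝓝 g) (𝓝 1) := by
        have : Continuous fun h : G => h * g⁻¹ := by fun_prop
        simpa using this.tendsto g
      exact h1 hUinv
    · apply Set.Subsingleton.finite
      have key : ∀ x : J a, (((fun g => g * x.1⁻¹) ⁻¹' K) ∩ ((fun h => h * g⁻¹) ⁻¹' U⁻¹)).Nonempty →
          g * x.1⁻¹ ∈ N := by
        rintro x ⟨h, h1, h2⟩
        apply hUK
        refine ⟨(h * g⁻¹)⁻¹, h2, h * x.1⁻¹, h1, ?_⟩
        group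
      intro x hx y hy
      exact Subtype.ext (hsep x.1 x.2.1 y.1 y.2.1 (x.2.2.trans y.2.2.symm) g (key x hx) (key y hy))
  have hunion : (⋃ a, F a) = Set.univ := by
    refine Set.eq_univ_of_forall fun g => ?_
    obtain ⟨x, hx, hgx⟩ := hcov g
    exact Set.mem_iUnion.2 ⟨c x, Set.mem_iUnion.2 ⟨⟨x, hx, rfl⟩, hgx⟩⟩
  apply dimLE_of_relDim_univ
  rw [← hunion]
  exact relDim_iUnion _ hFclosed hFdim

section manifold

variable {E : Type} [NormedAddCommGroup E] [NormedSpace ℝ E] [FiniteDimensional ℝ E]
  {M : Type} [TopologicalSpace M] [T2Space M]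

/-- the image of a compact subset of the target of a chart -/
theorem chart_image (φ : OpenPartialHomeomorph M E) {B : Set E} (hB : IsCompact B)
    (hBt : B ⊆ φ.target) : IsClosedEmbedding (fun b : B => φ.symm b.1) := by
  have : CompactSpace B := isCompact_iff_compactSpace.1 hB
  refine Continuous.isClosedEmbedding ?_ ?_
  · exact (φ.continuousOn_symm.mono hBt).domRestrict
  · intro a b hab
    exact Subtype.ext (φ.symm.injOn (by simpa using hBt a.2) (by simpa using hBt b.2) hab)

theorem relDim_chart_image (φ : OpenPartialHomeomorph M E) {B : Set E} (hB : IsCompact B)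
    (hBt : B ⊆ φ.target) (n : ℕ) : RelDim (φ.symm '' B) n ↔ RelDim B n := by
  have he := chart_image φ hB hBt
  have h1 : φ.symm '' B = (fun b : B => φ.symm b.1) '' Set.univ := by
    rw [Set.image_univ]
    ext x
    constructor
    · rintro ⟨b, hb, rfl⟩
      exact ⟨⟨b, hb⟩, rfl⟩
    · rintro ⟨b, rfl⟩
      exact ⟨b.1, b.2, rfl⟩
  have h2 : B = (Subtype.val : B → E) '' Set.univ := by
    rw [Set.image_univ, Subtype.range_coe]
  constructor
  · intro h
    rw [h1] at h
    have h3 := (h.of_image he.isInducing).image (IsInducing.subtypeVal (t := B))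
    rwa [← h2] at h3
  · intro h
    rw [h2] at h
    rw [h1]
    exact (h.of_image IsInducing.subtypeVal).image he.isInducing

variable [ChartedSpace E M]

/-- a compact coordinate ball around a point -/
theorem exists_coordinate_ball (x : M) :
    ∃ r : ℝ, 0 < r ∧ Metric.closedBall (chartAt E x x) r ⊆ (chartAt E x).target ∧
      (chartAt E x).symm '' Metric.closedBall (chartAt E x x) r ∈ 𝓝 x := by
  obtain ⟨r, hr, hsub⟩ := Metric.nhds_basis_closedBall.mem_iff.1
    ((chartAt E x).open_target.mem_nhds (mem_chart_target E x))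
  refine ⟨r, hr, hsub, ?_⟩
  have h1 := (chartAt E x).symm.image_mem_nhds (x := chartAt E x x)
    (by simp) (Metric.closedBall_mem_nhds (chartAt E x x) hr)
  simpa using h1

/-- compact subsets of an `n`-manifold have dimension at most `n` -/
theorem relDim_compact_manifold (E : Type) [NormedAddCommGroup E] [NormedSpace ℝ E]
    [FiniteDimensional ℝ E] [ChartedSpace E M] {C : Set M} (hC : IsCompact C) :
    RelDim C (Module.finrank ℝ E) := by
  choose r hr hsub hnhds using fun x : M => exists_coordinate_ball (E := E) x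
  obtain ⟨t, htC, htcov⟩ := hC.elim_nhds_subcover
    (fun x => (chartAt E x).symm '' Metric.closedBall (chartAt E x x) (r x))
    (fun x _ => hnhds x)
  have hcomp : ∀ x : M, IsCompact
      ((chartAt E x).symm '' Metric.closedBall (chartAt E x x) (r x)) := by
    intro x
    exact (isCompact_closedBall _ _).image_of_continuousOn
      ((chartAt E x).continuousOn_symm.mono (hsub x))
  have h1 : RelDim (⋃ x : {x // x ∈ t},
      (chartAt E x.1).symm '' Metric.closedBall (chartAt E x.1 x.1) (r x.1))
      (Module.finrank ℝ E) := by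
    refine relDim_iUnion _ (fun x => (hcomp x.1).isClosed) (fun x => ?_)
    exact (relDim_chart_image _ (isCompact_closedBall _ _) (hsub x.1) _).2
      (relDim_of_isCompact (isCompact_closedBall _ _))
  refine h1.mono hC.isClosed (htcov.trans ?_)
  intro y hy
  obtain ⟨x, hx, hy⟩ := mem_iUnion₂.1 hy
  exact mem_iUnion.2 ⟨⟨x, hx⟩, hy⟩

/-- a manifold of covering dimension at most `m` has dimension at most `m` -/
theorem finrank_le_of_dimLE (E : Type) [NormedAddCommGroup E] [NormedSpace ℝ E]
    [FiniteDimensional ℝ E] [ChartedSpace E M] [Nonempty M] {m : ℕ} (h : DimLE M m) :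
    Module.finrank ℝ E ≤ m := by
  obtain ⟨x⟩ := ‹Nonempty M›
  obtain ⟨r, hr, hsub, -⟩ := exists_coordinate_ball (E := E) x
  have hcomp : IsCompact ((chartAt E x).symm '' Metric.closedBall (chartAt E x x) r) :=
    (isCompact_closedBall _ _).image_of_continuousOn
      ((chartAt E x).continuousOn_symm.mono hsub)
  have h1 := (relDim_univ_of_dimLE h).mono hcomp.isClosed (Set.subset_univ _)
  exact finrank_le_of_relDim_ball _ hr
    ((relDim_chart_image _ (isCompact_closedBall _ _) hsub _).1 h1)

end manifold

/-- The covering dimension of a locally Euclidean group is the dimension of the manifold. -/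
theorem dimLE_group_iff (E : Type) [NormedAddCommGroup E] [NormedSpace ℝ E]
    [FiniteDimensional ℝ E] (G : Type) [TopologicalSpace G] [T2Space G] [Group G]
    [IsTopologicalGroup G] [ChartedSpace E G] (m : ℕ) : DimLE G m ↔ Module.finrank ℝ E ≤ m := by
  constructor
  · intro h
    exact finrank_le_of_dimLE E h
  · intro h
    have : LocallyCompactSpace G := ChartedSpace.locallyCompactSpace E G
    have h1 : DimLE G (Module.finrank ℝ E) :=
      dimLE_of_compact fun C hC => relDim_compact_manifold E hC
    intro ι _ U hU hcov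
    obtain ⟨κ, hκ, V, h2, h3, h4, h5⟩ := h1 ι U hU hcov
    exact ⟨κ, hκ, V, h2, h3, h4, fun x => (h5 x).trans (by omega)⟩

end Pool.Agent.H747.LieDim
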