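import Pool.Graph.R_seed8.Helper608.Brouwer
import Pool.Graph.R_seed8.H816R3.Dim

set_option autoImplicit false

open Set Filter Topology
open scoped BigOperators

namespace Pool.Agent.H747.LieDim

open Pool.Agent.H816R3 (DimLE RelDim)

variable {E : Type} [NormedAddCommGroup E] [NormedSpace ℝ E]

/-- a continuous retraction onto a closed ball -/
theorem exists_ball_retract (c : E) {r : ℝ} (hr : 0 < r) :
    ∃ q : E → E, Continuous q ∧ (∀ x, q x ∈ Metric.closedBall c r) ∧
      ∀ x ∈ Metric.closedBall c r, q x = x := by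
  refine ⟨fun x => c + (r / max r ‖x - c‖) • (x - c), ?_, ?_, ?_⟩
  · refine continuous_const.add (Continuous.smul ?_ (by fun_prop))
    refine continuous_const.div (by fun_prop) ?_
    intro x
    exact (lt_of_lt_of_le hr (le_max_left _ _)).ne'
  · intro x
    rw [Metric.mem_closedBall, dist_eq_norm, add_sub_cancel_left, norm_smul, Real.norm_eq_abs]
    have hm : 0 < max r ‖x - c‖ := lt_of_lt_of_le hr (le_max_left _ _)
    rw [abs_of_pos (div_pos hr hm), div_mul_eq_mul_div, div_le_iff₀ hm]
    exact mul_le_mul_of_nonneg_left (le_max_right _ _) hr.le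
  · intro x hx
    rw [Metric.mem_closedBall, dist_eq_norm] at hx
    simp only
    rw [max_eq_left hx, div_self hr.ne', one_smul, add_sub_cancel]

/-- A map of a ball that moves points by at most `ε` covers the smaller concentric ball. -/
theorem exists_preimage [FiniteDimensional ℝ E] (c : E) {r ε : ℝ} (hr : 0 < r) (f : E → E) (hf : Continuous f)
    (h : ∀ x ∈ Metric.closedBall c r, dist (f x) x ≤ ε) (y : E) (hy : dist y c + ε ≤ r) :
    ∃ x ∈ Metric.closedBall c r, f x = y := by
  obtain ⟨q, hq, hqB, hqid⟩ := exists_ball_retract c hr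
  obtain ⟨x, hx⟩ := Pool.Agent.Helper608.Brouwer.brouwer (fun x => q x - f (q x) + y)
    (by fun_prop) (ε + ‖y‖) (by
      intro x
      refine (norm_add_le _ _).trans ?_
      have h1 := h (q x) (hqB x)
      rw [dist_comm, dist_eq_norm] at h1
      linarith)
  have h1 : dist x y ≤ ε := by
    have h2 := h (q x) (hqB x)
    rw [dist_comm, dist_eq_norm] at h2
    rw [dist_eq_norm]
    have h3 : x - y = q x - f (q x) := by
      have : x = q x - f (q x) + y := hx.symm
      rw [this]
      simp only [add_sub_cancel_right]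
      rw [← this]
    rw [h3]
    exact h2
  have hxB : x ∈ Metric.closedBall c r := by
    rw [Metric.mem_closedBall]
    have := dist_triangle x y c
    linarith
  refine ⟨x, hxB, ?_⟩
  have h4 := hqid x hxB
  have h5 : x - f x + y = x := by rw [h4] at hx; exact hx
  have h6 : f x = x - f x + y - x + f x := by rw [h5]; simp
  have h7 : y = f x := by
    have : x - f x + y - x = 0 := by rw [h5]; simp
    have h8 : y - f x = 0 := by
      rw [← this]; abel
    exact sub_eq_zero.1 h8
  exact h7.symm

/-- Lebesgue: a ball in a normed space of dimension `n` has covering dimension at least `n`. -/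
theorem finrank_le_of_relDim_ball [FiniteDimensional ℝ E] (c : E) {r : ℝ} (hr : 0 < r) {m : ℕ}
    (h : RelDim (Metric.closedBall c r) m) : Module.finrank ℝ E ≤ m := by
  classical
  by_contra hcon
  push Not at hcon
  have hcomp : IsCompact (Metric.closedBall c r) := isCompact_closedBall c r
  obtain ⟨t, htc, htf, htcov⟩ := hcomp.finite_cover_balls (e := r / 4) (by positivity)
  have : Finite t := htf.to_subtype
  obtain ⟨N, ⟨e⟩⟩ := Finite.exists_equiv_fin t
  obtain ⟨V, hVo, hVc, hVU, hVn⟩ := h (Fin N) (fun i => Metric.ball ((e.symm i : t) : E) (r / 4))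
    (fun i => Metric.isOpen_ball) (by
      intro x hx
      obtain ⟨y, hy, hxy⟩ := mem_iUnion₂.1 (htcov hx)
      exact mem_iUnion.2 ⟨e ⟨y, hy⟩, by simpa using hxy⟩)
  obtain ⟨ρ, hρ⟩ := PartitionOfUnity.exists_isSubordinate
    (Metric.isClosed_closedBall (x := c) (ε := r)) V hVo hVc
  have hρ0 : ∀ a x, 0 ≤ ρ a x := fun a x => ρ.nonneg a x
  have hρV : ∀ a x, ρ a x ≠ 0 → x ∈ V a := fun a x hx =>
    hρ a (subset_tsupport _ (Function.mem_support.2 hx))
  have hρsum : ∀ x ∈ Metric.closedBall c r, ∑ a, ρ a x = 1 := by
    intro x hx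
    rw [← finsum_eq_sum_of_fintype]
    exact ρ.sum_eq_one hx
  let p : Fin N → E := fun i => ((e.symm i : t) : E)
  let f : E → E := fun x => ∑ a, ρ a x • p a
  have hf : Continuous f := by
    refine continuous_finsetSum _ fun a _ => ?_
    exact (ρ a).continuous.smul continuous_const
  have hdist : ∀ x ∈ Metric.closedBall c r, dist (f x) x ≤ r / 4 := by
    intro x hx
    have h1 : f x - x = ∑ a, ρ a x • (p a - x) := by
      simp only [f, smul_sub, Finset.sum_sub_distrib]
      rw [← Finset.sum_smul, hρsum x hx, one_smul]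
    rw [dist_eq_norm, h1]
    calc ‖∑ a, ρ a x • (p a - x)‖ ≤ ∑ a, ‖ρ a x • (p a - x)‖ := norm_sum_le _ _
      _ ≤ ∑ a, ρ a x * (r / 4) := by
          refine Finset.sum_le_sum fun a _ => ?_
          rw [norm_smul, Real.norm_eq_abs, abs_of_nonneg (hρ0 a x)]
          by_cases h0 : ρ a x = 0
          · rw [h0]; simp
          · refine mul_le_mul_of_nonneg_left ?_ (hρ0 a x)
            have h2 := hVU a (hρV a x h0)
            rw [Metric.mem_ball, dist_comm, dist_eq_norm] at h2
            exact h2.le
      _ = r / 4 := by rw [← Finset.sum_mul, hρsum x hx, one_mul]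
  -- the affine pieces
  let 𝒮 : Finset (Finset (Fin N)) := Finset.univ.filter fun S => S.card ≤ m + 1
  have hcover : Metric.closedBall c (r / 2) ⊆
      ⋃ S ∈ 𝒮, (affineSpan ℝ (p '' (S : Set (Fin N))) : Set E) := by
    intro y hy
    obtain ⟨x, hx, hxy⟩ := exists_preimage c hr f hf hdist y (by
      rw [Metric.mem_closedBall] at hy
      linarith)
    refine mem_iUnion₂.2 ⟨Finset.univ.filter fun a => ρ a x ≠ 0, ?_, ?_⟩
    · simp only [𝒮, Finset.mem_filter, Finset.mem_univ, true_and]
      refine le_trans ?_ (hVn x hx)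
      rw [Nat.card_eq_fintype_card, Fintype.card_subtype]
      refine Finset.card_le_card fun a ha => ?_
      simp only [Finset.mem_filter, Finset.mem_univ, true_and] at ha ⊢
      exact hρV a x ha
    · rw [← hxy]
      have h1 : f x = ∑ a ∈ Finset.univ.filter (fun a => ρ a x ≠ 0), ρ a x • p a := by
        simp only [f]
        rw [Finset.sum_filter_of_ne]
        intro a _ ha h0
        exact ha (by rw [h0, zero_smul])
      rw [h1]
      refine (affineSpan ℝ (p '' _)).convex.sum_mem (fun a _ => hρ0 a x) ?_ ?_
      · rw [Finset.sum_filter_ne_zero]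
        exact hρsum x hx
      · intro a ha
        exact subset_affineSpan ℝ _ ⟨a, ha, rfl⟩
  -- they are null
  let _ : MeasurableSpace E := borel E
  have : BorelSpace E := ⟨rfl⟩
  let μ : MeasureTheory.Measure E := MeasureTheory.Measure.addHaar
  have hnull : ∀ S ∈ 𝒮, μ (affineSpan ℝ (p '' (S : Set (Fin N))) : Set E) = 0 := by
    intro S hS
    refine MeasureTheory.Measure.addHaar_affineSubspace μ _ ?_
    intro htop
    simp only [𝒮, Finset.mem_filter, Finset.mem_univ, true_and] at hS
    have h1 : vectorSpan ℝ (p '' (S : Set (Fin N))) = ⊤ := by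
      rw [← direction_affineSpan, htop]
      exact AffineSubspace.direction_top ℝ E E
    have h2 : Module.finrank ℝ (vectorSpan ℝ (p '' (S : Set (Fin N)))) ≤ m := by
      rcases Nat.eq_zero_or_pos S.card with h0 | h0
      · have h4 : p '' (S : Set (Fin N)) = ∅ := by
          rw [Finset.card_eq_zero.1 h0, Finset.coe_empty, Set.image_empty]
        rw [h4, vectorSpan_empty, finrank_bot]
        exact Nat.zero_le _
      · have h3 := finrank_vectorSpan_image_finset_le ℝ p S (n := S.card - 1) (by omega)
        rw [Finset.coe_image] at h3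
        omega
    rw [h1, finrank_top] at h2
    omega
  have h0 : μ (Metric.closedBall c (r / 2)) = 0 := by
    refine MeasureTheory.measure_mono_null hcover ?_
    exact (MeasureTheory.measure_biUnion_null_iff (Finset.countable_toSet 𝒮)).2 hnull
  have hpos : 0 < μ (Metric.closedBall c (r / 2)) :=
    Metric.measure_closedBall_pos μ c (by positivity)
  rw [h0] at hpos
  exact lt_irrefl _ hpos

end Pool.Agent.H747.LieDim
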